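import Mathlib
import Pool.Agent.J4H53.VL.D

/-!
# Perron numbers whose trace has bounded degree over a Galois extension with a local condition

Let `β` be a Perron number such that `β⁻¹` is a conjugate of `β`, let `t = β + β⁻¹`, `n` the degree of
`t`. Let `L` be a Galois extension of a number field `F` of degree at most `f`, `G = Gal(L/F)`, and
suppose that a conjugate of `t` has degree at most `D` over `L`. Let `p` be a prime number with `p > d`
and `p ≥ 16 ^ (f D)`, such that the `d`-th powers of the elements of the decomposition groups in `G` of
the primes over `p` are central in `G`. For all `B`, `d`, `f`, `D` and `X` only finitely many such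
`β ≤ B`, with `p ≤ X`, have infinitely many powers which are Parry numbers. The condition holds for
instance
* for every `p > d`, if all `d`-th powers in `G` are central,
* for `p > m!`, `d = m!`, if the local degrees of `L` over `F` at `p` are at most `m`,
* for `p > m!`, `d = m!`, if the local degrees at `p` of the fixed field of the centre of `G` are at most
  `m`.
There is no condition on the degree or on the ramification of `L`, and `ℚ(t)` need not have any
nontrivial automorphism.

Method. Let `P` be the minimal polynomial of `t` over `L`, `M = L(t)`, and `D_m` the polynomials with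
`D_m(t) = β ^ m + β ^ (-m)`; we may suppose that `L` is generated over `F` by the coefficients of the
conjugates of `P` (decomposition groups are mapped onto decomposition groups). Let `e` be the largest
ramification index over `p` in `L`. A suitable common power (with exponent `m = f! d`) of the Frobenius
elements over `p` depends only on the prime of `F` below, so that there are at most `f` such
automorphisms `σ`. The numbers `P ^ σ (t ^ (p ^ m))` are congruent to `P(t) ^ (p ^ m) = 0` modulo the
primes of `M` belonging to `σ`, so the product of the `D_a(t) - D_b(t')`, `a = p ^ (m + k)`,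
`b = p ^ k ≥ e D`, over all `σ` and all zeros `t'` of `P ^ σ` is divisible by `p`. The norm from a normal
field gives `n ≤ A e D` with `A` bounded, and `e` is at most `f` times the order of an inertia subgroup
of `G`. The wild part of this group is central, since `p > d`, and its tame part is cyclic, so that
`n ≤ A D f d |Z|`, `Z` the centre of `G`. The centre acts faithfully on the orbit of `P`, so the field
generated by the coefficients of `P` is an abelian extension of a field `E` of bounded degree, with
group `Z`. Now the first part of the argument is applied to this extension and to two different large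
primes: in the abelian case the tame part of an inertia group has bounded order, so that `Z` has a
`q`-subgroup of bounded index for both primes `q`, and `n` is bounded. Finally there are only finitely
many Perron numbers of bounded degree and size.
-/

set_option autoImplicit false

open Polynomial NumberField

namespace Pool.Agent.Results.MP_1f45fc_nt.LocallyCentralExtensions

open Pool.Agent.W738.SAL

/-- For all primes `Q` of `L` over `p` and all `σ` in `Gal(L/F)` with `σ Q ⊆ Q` (the decomposition
group), `σ ^ d` is central in `Gal(L/F)`. -/
def LocallyCentral (F L : Type) [Field F] [Field L] [NumberField L] [Algebra F L] (d p : ℕ) : Prop :=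
  ∀ Q : Ideal (𝓞 L), Q.IsPrime → (p : 𝓞 L) ∈ Q → ∀ σ : L ≃ₐ[F] L,
    (∀ x : 𝓞 L, x ∈ Q → σ • x ∈ Q) → ∀ τ : L ≃ₐ[F] L, σ ^ d * τ = τ * σ ^ d

/-- There are a number field `F` of degree at most `f`, a Galois extension `L` of `F` and a prime number
`p` with `d < p` and `16 ^ (f D) ≤ p ≤ X` such that the `d`-th powers of the elements of the decomposition
groups over `p` are central in `Gal(L/F)` and the minimal polynomial over `ℚ` of the algebraic number
`t` has over `L` a factor of degree at least `1` and at most `D`. -/
def NearLocallyCentral (t : ℝ) (d f D X : ℕ) : Prop :=
  ∃ (F L : Type) (_ : Field F) (_ : NumberField F) (_ : Field L) (_ : NumberField L)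
    (_ : Algebra F L) (_ : IsGalois F L) (p : ℕ), Module.finrank ℚ F ≤ f ∧
    p.Prime ∧ d < p ∧ 16 ^ (f * D) ≤ p ∧ p ≤ X ∧ LocallyCentral F L d p ∧
    ∃ P : L[X], 0 < P.natDegree ∧ P.natDegree ≤ D ∧ P ∣ (minpoly ℚ t).map (algebraMap ℚ L)

/-- For all `B`, `f`, `D`, `X` and `d ≥ 1` there are only finitely many Perron numbers `β ≤ B` with
`β⁻¹` a conjugate of `β`, infinitely many powers `β ^ n` which are Parry numbers, and
`NearLocallyCentral (β + β⁻¹) d f D X`. -/
theorem result (B : ℝ) (d f D X : ℕ) (hd : 0 < d) :
    {β : ℝ | IsPerron β ∧ IsReciprocal β ∧ β ≤ B ∧ NearLocallyCentral (β + β⁻¹) d f D X ∧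
      (ParryPowers β).Infinite}.Finite := by
  refine (Pool.Agent.J4H53.VL.finalLoc B d f D X hd).subset ?_
  rintro β ⟨hP, hrec, hβ, ⟨F, L, i1, i2, i3, i4, i5, i6, p, h1, h2, h3, h4, h5, h6, h7⟩, hinf⟩
  exact ⟨hP, hrec, hβ, hinf, F, L, i1, i2, i3, i4, i5, i6, p, h1, h2, h3, h4, h5,
    fun Q hQ σ hσ τ => h6 Q hQ.1 hQ.2 σ hσ τ, h7⟩

end Pool.Agent.Results.MP_1f45fc_nt.LocallyCentralExtensions
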